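import Pool.Agent.helper62.QU.Spec

/-! Row TR3 of helper62's plan QU (MP_07c750_an): discretisation of a kernel operator. -/

open scoped MatrixGroups ContDiff Topology UpperHalfPlane
open UpperHalfPlane MeasureTheory Filter Set

namespace Pool.Agent.QU

section tools

theorem TR3_intOn {E : Type} [NormedAddCommGroup E] {f : ℍ → E} (hf : Continuous f) {K c : Set ℍ}
    (hK : IsCompact K) (hc : c ⊆ K) : IntegrableOn f c volume :=
  (hf.continuousOn.integrableOn_compact hK).mono_set hc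

/-- Cauchy-Schwarz on a relatively compact set -/
theorem TR3_cs {f : ℍ → ℝ} (hf : Continuous f) {K c : Set ℍ} (hK : IsCompact K) (hc : c ⊆ K) :
    (∫ z in c, f z) ^ 2 ≤ (volume c).toReal * ∫ z in c, f z ^ 2 := by
  have hlt : volume c < ⊤ := lt_of_le_of_lt (measure_mono hc) hK.measure_lt_top
  have h1 : IntegrableOn f c volume := TR3_intOn hf hK hc
  have h2 : IntegrableOn (fun z => f z ^ 2) c volume := TR3_intOn (hf.pow 2) hK hc
  have hone : ∀ t : ℝ, IntegrableOn (fun _ : ℍ => t) c volume :=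
    fun t => TR3_intOn continuous_const hK hc
  have hq : ∀ t : ℝ, 0 ≤ (∫ z in c, f z ^ 2) - 2 * t * (∫ z in c, f z) +
      t ^ 2 * (volume c).toReal := by
    intro t
    have h3 : 0 ≤ ∫ z in c, (f z - t) ^ 2 := integral_nonneg fun z => sq_nonneg _
    have h4 : ∫ z in c, (f z - t) ^ 2 = (∫ z in c, f z ^ 2) - 2 * t * (∫ z in c, f z) +
        t ^ 2 * (volume c).toReal := by
      have e : (fun z => (f z - t) ^ 2) = fun z => (f z ^ 2 - 2 * t * f z) + t ^ 2 := by
        funext z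
        ring
      have h5 : IntegrableOn (fun z => f z ^ 2 - 2 * t * f z) c volume :=
        h2.sub (h1.const_mul _)
      rw [e, integral_add h5 (hone _), integral_sub h2 (h1.const_mul _), integral_const_mul,
        setIntegral_const, smul_eq_mul, Measure.real]
      ring
    rwa [h4] at h3
  by_cases hm : (volume c).toReal = 0
  · have hc0 : volume c = 0 := by
      rcases (ENNReal.toReal_eq_zero_iff _).1 hm with h | h
      · exact h
      · exact absurd h hlt.ne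
    have h6 : ∫ z in c, f z = 0 := by
      rw [Measure.restrict_eq_zero.2 hc0]
      exact integral_zero_measure _
    rw [h6, hm]
    norm_num
  · have hmpos : 0 < (volume c).toReal := lt_of_le_of_ne ENNReal.toReal_nonneg (Ne.symm hm)
    have h7 := hq ((∫ z in c, f z) / (volume c).toReal)
    have h8 : (∫ z in c, f z ^ 2) - 2 * ((∫ z in c, f z) / (volume c).toReal) * (∫ z in c, f z) +
        ((∫ z in c, f z) / (volume c).toReal) ^ 2 * (volume c).toReal =
        (∫ z in c, f z ^ 2) - (∫ z in c, f z) ^ 2 / (volume c).toReal := by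
      field_simp
      ring
    rw [h8, sub_nonneg, div_le_iff₀ hmpos] at h7
    linarith

/-- coefficients of `mC` -/
theorem TR3_coeff {Γ : Subgroup SL(2, ℝ)} (c : Γ → ℂ) (S : Finset Γ) [DecidableEq Γ] (γ : Γ) :
    (∑ δ ∈ S, MonoidAlgebra.single δ (c δ) : MonoidAlgebra ℂ Γ).coeff γ =
      if γ ∈ S then c γ else 0 := by
  rw [MonoidAlgebra.coeff_sum, Finsupp.finsetSum_apply]
  simp only [MonoidAlgebra.coeff_single, Finsupp.single_apply]
  rw [Finset.sum_ite_eq']

theorem TR3_rep {Γ : Subgroup SL(2, ℝ)} {V : Type} [NormedAddCommGroup V] [InnerProductSpace ℂ V]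
    (ρ : Γ →* (V ≃ₗᵢ[ℂ] V)) (c : Γ → ℂ) (S : Finset Γ) (x : V) :
    rep ρ (∑ δ ∈ S, MonoidAlgebra.single δ (c δ)) x = ∑ γ ∈ S, c γ • ρ γ x := by
  classical
  unfold rep
  rw [ContinuousLinearMap.sum_apply]
  have hsub : (∑ δ ∈ S, MonoidAlgebra.single δ (c δ) : MonoidAlgebra ℂ Γ).coeff.support ⊆ S := by
    intro γ hγ
    rw [Finsupp.mem_support_iff, TR3_coeff] at hγ
    by_contra hcon
    rw [if_neg hcon] at hγ
    exact hγ rfl
  rw [Finset.sum_subset hsub]
  · refine Finset.sum_congr rfl fun γ hγ => ?_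
    rw [TR3_coeff, if_pos hγ]
    rfl
  · intro γ _ hγ
    rw [Finsupp.mem_support_iff, not_not] at hγ
    rw [hγ, zero_smul]
    rfl

end tools

section unfold

variable {Γ : Subgroup SL(2, ℝ)} {F : Set ℍ} {a : ℍ → ℍ → ℝ}

theorem TR3_smul_cont (γ : Γ) : Continuous fun w : ℍ => γ • w := by
  have h : Continuous fun w : ℍ => ((γ : SL(2, ℝ)) : GL (Fin 2) ℝ) • w := continuous_const_smul _
  exact h

theorem TR3_unfold (hfd : IsFundamentalDomain Γ F (volume : Measure ℍ)) (hct : Countable Γ)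
    (hinv : SMulInvariantMeasure Γ ℍ (volume : Measure ℍ)) (ha : PKer Γ a) (S : Finset Γ)
    (hS : ∀ (γ : Γ) (z w : ℍ), z ∈ F → w ∈ F → a z (γ • w) ≠ 0 → γ ∈ S) {g : ℍ → ℍ → ℝ}
    (hg : Continuous (Function.uncurry g)) {z : ℍ} (hz : z ∈ F) :
    ∫ w : ℍ, a z w * g z w = ∑ γ ∈ S, ∫ w in F, a z (γ • w) * g z (γ • w) := by
  have hac : Continuous fun w => a z w := ha.cont.comp (Continuous.prodMk_right z)
  have hgc : Continuous fun w => g z w := hg.comp (Continuous.prodMk_right z)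
  obtain ⟨R, hR⟩ := ha.prop
  have hsupp : HasCompactSupport fun w => a z w * g z w := by
    refine HasCompactSupport.intro (isCompact_closedBall z R) fun w hw => ?_
    have h0 : a z w = 0 := by
      by_contra hne
      apply hw
      rw [Metric.mem_closedBall, dist_comm]
      exact hR z w hne
    rw [h0, zero_mul]
  have hint : Integrable (fun w => a z w * g z w) (volume : Measure ℍ) :=
    (hac.mul hgc).integrable_of_hasCompactSupport hsupp
  rw [hfd.integral_eq_tsum'' _ hint]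
  refine tsum_eq_sum fun γ hγ => ?_
  refine setIntegral_eq_zero_of_forall_eq_zero fun w hw => ?_
  have h0 : a z (γ • w) = 0 := by
    by_contra hne
    exact hγ (hS γ z w hz hw hne)
  rw [h0, zero_mul]

end unfold

section cell

theorem TR3_int2 {b : ℍ → ℍ → ℝ} (hb : Continuous (Function.uncurry b)) {K c c' : Set ℍ}
    (hK : IsCompact K) (hc : c ⊆ K) (hc' : c' ⊆ K) :
    IntegrableOn (fun z => ∫ w in c', b z w) c volume := by
  have h1 : IntegrableOn (Function.uncurry b) (K ×ˢ K)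
      ((volume : Measure ℍ).prod (volume : Measure ℍ)) :=
    hb.continuousOn.integrableOn_compact (hK.prod hK)
  have h2 : IntegrableOn (Function.uncurry b) (c ×ˢ c')
      ((volume : Measure ℍ).prod (volume : Measure ℍ)) := h1.mono_set (prod_mono hc hc')
  rw [IntegrableOn, ← Measure.prod_restrict] at h2
  exact h2.integral_prod_left

variable {V : Type} [NormedAddCommGroup V] [InnerProductSpace ℂ V] [CompleteSpace V]

theorem TR3_reinner {ψ : ℍ → V} (hψ : Continuous ψ) {K c : Set ℍ} (hK : IsCompact K) (hc : c ⊆ K)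
    (x : V) : ∫ w in c, (inner ℂ x (ψ w)).re = (inner ℂ x (∫ w in c, ψ w)).re := by
  have hi : IntegrableOn ψ c volume := TR3_intOn hψ hK hc
  have h1 := integral_inner (𝕜 := ℂ) hi x
  have h2 := integral_re (𝕜 := ℂ) (hi.const_inner x)
  rw [← h1]
  exact h2

theorem TR3_reinner' {ψ : ℍ → V} (hψ : Continuous ψ) {K c : Set ℍ} (hK : IsCompact K) (hc : c ⊆ K)
    (x : V) : ∫ w in c, (inner ℂ (ψ w) x).re = (inner ℂ (∫ w in c, ψ w) x).re := by
  have e : ∀ y z : V, (inner ℂ y z).re = (inner ℂ z y).re := fun y z => inner_re_symm (𝕜 := ℂ) y z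
  rw [e (∫ w in c, ψ w) x, ← TR3_reinner hψ hK hc x]
  exact integral_congr_ae (Eventually.of_forall fun w => e _ _)

theorem TR3_rho {Γ : Subgroup SL(2, ℝ)} (ρ : Γ →* (V ≃ₗᵢ[ℂ] V)) (γ : Γ) {φ : ℍ → V}
    (hφ : Continuous φ) {K c : Set ℍ} (hK : IsCompact K) (hc : c ⊆ K) :
    ∫ w in c, ρ γ (φ w) = ρ γ (∫ w in c, φ w) :=
  ContinuousLinearMap.integral_comp_comm
    ((ρ γ).toLinearIsometry.toContinuousLinearMap : V →L[ℂ] V) (TR3_intOn hφ hK hc)

theorem TR3_cell {Γ : Subgroup SL(2, ℝ)} {a : ℍ → ℍ → ℝ} (ha : PKer Γ a) {ε A : ℝ} (hε : 0 ≤ ε)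
    (ρ : Γ →* (V ≃ₗᵢ[ℂ] V)) {φ : ℍ → V} (hφ : Continuous φ)
    (heq : ∀ (γ : Γ) (z : ℍ), φ (γ • z) = ρ γ (φ z)) (γ : Γ) {K c c' : Set ℍ} (hK : IsCompact K)
    (hc : c ⊆ K) (hc' : c' ⊆ K) (hcm : MeasurableSet c) (hcm' : MeasurableSet c')
    (hA : ∀ z ∈ c, ∀ w ∈ c', |a z (γ • w) - A| ≤ ε) :
    ∫ z in c, ∫ w in c', a z (γ • w) * (inner ℂ (φ z) (φ (γ • w))).re ≤
      A * (inner ℂ (∫ z in c, φ z) (ρ γ (∫ w in c', φ w))).re +
        ε * ((∫ z in c, ‖φ z‖) * ∫ w in c', ‖φ w‖) := by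
  have hρc : Continuous fun w => ρ γ (φ w) := (ρ γ).continuous.comp hφ
  have hbc : Continuous (Function.uncurry fun z w : ℍ => a z (γ • w) *
      (inner ℂ (φ z) (φ (γ • w))).re) := by
    have h1 : Continuous fun q : ℍ × ℍ => a q.1 (γ • q.2) :=
      ha.cont.comp (continuous_fst.prodMk ((TR3_smul_cont γ).comp continuous_snd))
    have h2 : Continuous fun q : ℍ × ℍ => (inner ℂ (φ q.1) (φ (γ • q.2))).re :=
      Complex.continuous_re.comp ((hφ.comp continuous_fst).inner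
        (hφ.comp ((TR3_smul_cont γ).comp continuous_snd)))
    exact h1.mul h2
  have hnorm : Continuous fun w => ‖φ w‖ := hφ.norm
  have hI : IntegrableOn (fun w => ‖φ w‖) c' volume := TR3_intOn hnorm hK hc'
  have hstep : ∀ z ∈ c, ∫ w in c', a z (γ • w) * (inner ℂ (φ z) (φ (γ • w))).re ≤
      A * (inner ℂ (φ z) (ρ γ (∫ w in c', φ w))).re + ε * (∫ w in c', ‖φ w‖) * ‖φ z‖ := by
    intro z hz
    have hg : Continuous fun w => (inner ℂ (φ z) (ρ γ (φ w))).re :=
      Complex.continuous_re.comp (continuous_const.inner hρc)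
    have hgi : IntegrableOn (fun w => (inner ℂ (φ z) (ρ γ (φ w))).re) c' volume :=
      TR3_intOn hg hK hc'
    have e1 : ∫ w in c', (A * (inner ℂ (φ z) (ρ γ (φ w))).re + ε * ‖φ z‖ * ‖φ w‖) =
        A * (inner ℂ (φ z) (ρ γ (∫ w in c', φ w))).re + ε * (∫ w in c', ‖φ w‖) * ‖φ z‖ := by
      rw [integral_add (hgi.const_mul A) (hI.const_mul _), integral_const_mul, integral_const_mul,
        TR3_reinner hρc hK hc', TR3_rho ρ γ hφ hK hc']
      ring
    rw [← e1]
    refine setIntegral_mono_on ?_ ((hgi.const_mul A).add (hI.const_mul _)) hcm' fun w hw => ?_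
    · exact TR3_intOn (hbc.comp (Continuous.prodMk_right z)) hK hc'
    · rw [heq γ w]
      have h3 : |(inner ℂ (φ z) (ρ γ (φ w))).re| ≤ ‖φ z‖ * ‖φ w‖ := by
        calc |(inner ℂ (φ z) (ρ γ (φ w))).re| ≤ ‖inner ℂ (φ z) (ρ γ (φ w))‖ :=
              Complex.abs_re_le_norm _
          _ ≤ ‖φ z‖ * ‖ρ γ (φ w)‖ := norm_inner_le_norm _ _
          _ = ‖φ z‖ * ‖φ w‖ := by rw [LinearIsometryEquiv.norm_map]
      have h4 : (a z (γ • w) - A) * (inner ℂ (φ z) (ρ γ (φ w))).re ≤ ε * (‖φ z‖ * ‖φ w‖) := by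
        calc (a z (γ • w) - A) * (inner ℂ (φ z) (ρ γ (φ w))).re
            ≤ |(a z (γ • w) - A) * (inner ℂ (φ z) (ρ γ (φ w))).re| := le_abs_self _
          _ = |a z (γ • w) - A| * |(inner ℂ (φ z) (ρ γ (φ w))).re| := abs_mul _ _
          _ ≤ ε * (‖φ z‖ * ‖φ w‖) := mul_le_mul (hA z hz w hw) h3 (abs_nonneg _) hε
      nlinarith [h4]
  have hg2 : Continuous fun z => (inner ℂ (φ z) (ρ γ (∫ w in c', φ w))).re :=
    Complex.continuous_re.comp (hφ.inner continuous_const)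
  have hgi2 : IntegrableOn (fun z => (inner ℂ (φ z) (ρ γ (∫ w in c', φ w))).re) c volume :=
    TR3_intOn hg2 hK hc
  have hI2 : IntegrableOn (fun w => ‖φ w‖) c volume := TR3_intOn hnorm hK hc
  have e2 : ∫ z in c, (A * (inner ℂ (φ z) (ρ γ (∫ w in c', φ w))).re +
      ε * (∫ w in c', ‖φ w‖) * ‖φ z‖) =
      A * (inner ℂ (∫ z in c, φ z) (ρ γ (∫ w in c', φ w))).re +
        ε * ((∫ z in c, ‖φ z‖) * ∫ w in c', ‖φ w‖) := by
    rw [integral_add (hgi2.const_mul A) (hI2.const_mul _), integral_const_mul, integral_const_mul,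
      TR3_reinner' hφ hK hc]
    ring
  rw [← e2]
  exact setIntegral_mono_on (TR3_int2 hbc hK hc hc') ((hgi2.const_mul A).add (hI2.const_mul _))
    hcm hstep

end cell

section assembly

theorem TR3_split {F : Set ℍ} {k : ℕ} {c : Fin k → Set ℍ} (hcm : ∀ i, MeasurableSet (c i))
    (hcU : (⋃ i, c i) = F) (hcd : ∀ i j, i ≠ j → Disjoint (c i) (c j)) {f : ℍ → ℝ}
    (hf : ∀ i, IntegrableOn f (c i) volume) : ∫ z in F, f z = ∑ i, ∫ z in c i, f z := by
  rw [← hcU]
  exact integral_iUnion_fintype hcm (fun i j hij => hcd i j hij) hf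

theorem TR3 (h1 : INV_stmt) (h2 : DOB_stmt) : TR3_stmt := by
  intro Γ F a S ε k c p V _ _ _ ρ φ hΓ hF ha hε hS hcm hcU hcd hA hφ heq
  obtain ⟨hct, hfd, -, hlt, -, -⟩ := h2 Γ F hΓ hF
  obtain ⟨K, hK, hFK⟩ := hF.rel
  have hinv := h1.2.1 Γ
  have hcF : ∀ i, c i ⊆ F := fun i => by
    rw [← hcU]
    exact subset_iUnion c i
  have hcK : ∀ i, c i ⊆ K := fun i => (hcF i).trans hFK
  have hn : Continuous fun z => ‖φ z‖ := hφ.norm
  have hn2 : Continuous fun z => ‖φ z‖ ^ 2 := hn.pow 2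
  refine ⟨fun i => ∫ z in c i, φ z, ?_, ?_⟩
  · have h3 : ∫ z in F, ‖φ z‖ ^ 2 = ∑ i, ∫ z in c i, ‖φ z‖ ^ 2 :=
      TR3_split hcm hcU hcd fun i => TR3_intOn hn2 hK (hcK i)
    rw [h3, Finset.mul_sum]
    refine Finset.sum_le_sum fun i _ => ?_
    have h4 : ‖∫ z in c i, φ z‖ ≤ ∫ z in c i, ‖φ z‖ := norm_integral_le_integral_norm _
    have h5 : (∫ z in c i, ‖φ z‖) ^ 2 ≤ (volume (c i)).toReal * ∫ z in c i, ‖φ z‖ ^ 2 :=
      TR3_cs hn hK (hcK i)
    have h6 : (volume (c i)).toReal ≤ (volume F).toReal :=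
      ENNReal.toReal_mono hlt.ne (measure_mono (hcF i))
    have h7 : 0 ≤ ∫ z in c i, ‖φ z‖ ^ 2 := integral_nonneg fun z => sq_nonneg _
    calc ‖∫ z in c i, φ z‖ ^ 2 ≤ (∫ z in c i, ‖φ z‖) ^ 2 :=
          pow_le_pow_left₀ (norm_nonneg _) h4 2
      _ ≤ (volume (c i)).toReal * ∫ z in c i, ‖φ z‖ ^ 2 := h5
      _ ≤ (volume F).toReal * ∫ z in c i, ‖φ z‖ ^ 2 := mul_le_mul_of_nonneg_right h6 h7
  · have hgc : Continuous (Function.uncurry fun z w : ℍ => (inner ℂ (φ z) (φ w)).re) :=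
      Complex.continuous_re.comp ((hφ.comp continuous_fst).inner (hφ.comp continuous_snd))
    have hbc : ∀ γ : Γ, Continuous (Function.uncurry fun z w : ℍ => a z (γ • w) *
        (inner ℂ (φ z) (φ (γ • w))).re) := by
      intro γ
      have h3 : Continuous fun q : ℍ × ℍ => a q.1 (γ • q.2) :=
        ha.cont.comp (continuous_fst.prodMk ((TR3_smul_cont γ).comp continuous_snd))
      have h4 : Continuous fun q : ℍ × ℍ => (inner ℂ (φ q.1) (φ (γ • q.2))).re :=
        Complex.continuous_re.comp ((hφ.comp continuous_fst).inner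
          (hφ.comp ((TR3_smul_cont γ).comp continuous_snd)))
      exact h3.mul h4
    -- unfolding
    have e1 : (∫ z in F, ∫ w : ℍ, a z w * (inner ℂ (φ z) (φ w)).re) =
        ∑ γ ∈ S, ∫ z in F, ∫ w in F, a z (γ • w) * (inner ℂ (φ z) (φ (γ • w))).re := by
      rw [← integral_finsetSum S fun γ _ => TR3_int2 (hbc γ) hK hFK hFK]
      refine setIntegral_congr_fun hF.meas fun z hz => ?_
      exact TR3_unfold hfd hct hinv ha S hS hgc hz
    have e2 : ∀ γ : Γ, ∫ z in F, ∫ w in F, a z (γ • w) * (inner ℂ (φ z) (φ (γ • w))).re =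
        ∑ i, ∑ j, ∫ z in c i, ∫ w in c j, a z (γ • w) * (inner ℂ (φ z) (φ (γ • w))).re := by
      intro γ
      rw [TR3_split hcm hcU hcd fun i => TR3_int2 (hbc γ) hK (hcK i) hFK]
      refine Finset.sum_congr rfl fun i _ => ?_
      rw [← integral_finsetSum Finset.univ fun j _ => TR3_int2 (hbc γ) hK (hcK i) (hcK j)]
      refine integral_congr_ae (Eventually.of_forall fun z => ?_)
      exact TR3_split hcm hcU hcd fun j =>
        TR3_intOn ((hbc γ).comp (Continuous.prodMk_right z)) hK (hcK j)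
    -- the form
    have e3 : (∑ i, ∑ j, inner ℂ (∫ z in c i, φ z) (rep ρ (mC a S p i j) (∫ z in c j, φ z))).re =
        ∑ γ ∈ S, ∑ i, ∑ j, a (p i) (γ • p j) *
          (inner ℂ (∫ z in c i, φ z) (ρ γ (∫ z in c j, φ z))).re := by
      rw [Complex.re_sum]
      rw [Finset.sum_comm]
      refine Finset.sum_congr rfl fun i _ => ?_
      rw [Complex.re_sum, Finset.sum_comm]
      refine Finset.sum_congr rfl fun j _ => ?_
      unfold mC
      rw [TR3_rep, inner_sum, Complex.re_sum]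
      refine Finset.sum_congr rfl fun γ _ => ?_
      rw [inner_smul_right, Complex.re_ofReal_mul]
    -- the norm
    have e4 : ∫ z in F, ‖φ z‖ = ∑ i, ∫ z in c i, ‖φ z‖ :=
      TR3_split hcm hcU hcd fun i => TR3_intOn hn hK (hcK i)
    have h5 : (∫ z in F, ‖φ z‖) ^ 2 ≤ (volume F).toReal * ∫ z in F, ‖φ z‖ ^ 2 :=
      TR3_cs hn hK hFK
    rw [e1, e3]
    have h6 : ∀ γ : Γ, ∫ z in F, ∫ w in F, a z (γ • w) * (inner ℂ (φ z) (φ (γ • w))).re ≤
        (∑ i, ∑ j, a (p i) (γ • p j) *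
          (inner ℂ (∫ z in c i, φ z) (ρ γ (∫ z in c j, φ z))).re) +
          ε * (∫ z in F, ‖φ z‖) ^ 2 := by
      intro γ
      have h7 : ε * (∫ z in F, ‖φ z‖) ^ 2 =
          ∑ i, ∑ j, ε * ((∫ z in c i, ‖φ z‖) * ∫ z in c j, ‖φ z‖) := by
        rw [e4, sq, Finset.sum_mul_sum, Finset.mul_sum]
        exact Finset.sum_congr rfl fun i _ => Finset.mul_sum _ _ _
      rw [e2 γ, h7, ← Finset.sum_add_distrib]
      refine Finset.sum_le_sum fun i _ => ?_
      rw [← Finset.sum_add_distrib]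
      refine Finset.sum_le_sum fun j _ => ?_
      exact TR3_cell ha hε ρ hφ heq γ hK (hcK i) (hcK j) (hcm i) (hcm j) (hA γ i j)
    calc ∑ γ ∈ S, ∫ z in F, ∫ w in F, a z (γ • w) * (inner ℂ (φ z) (φ (γ • w))).re
        ≤ ∑ γ ∈ S, ((∑ i, ∑ j, a (p i) (γ • p j) *
          (inner ℂ (∫ z in c i, φ z) (ρ γ (∫ z in c j, φ z))).re) +
          ε * (∫ z in F, ‖φ z‖) ^ 2) := Finset.sum_le_sum fun γ _ => h6 γ
      _ = (∑ γ ∈ S, ∑ i, ∑ j, a (p i) (γ • p j) *
          (inner ℂ (∫ z in c i, φ z) (ρ γ (∫ z in c j, φ z))).re) +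
          ε * S.card * (∫ z in F, ‖φ z‖) ^ 2 := by
        rw [Finset.sum_add_distrib, Finset.sum_const, nsmul_eq_mul]
        ring
      _ ≤ _ := by
        have h8 : 0 ≤ ε * S.card := mul_nonneg hε (Nat.cast_nonneg _)
        have h9 := mul_le_mul_of_nonneg_left h5 h8
        have h10 : ε * S.card * ((volume F).toReal * ∫ z in F, ‖φ z‖ ^ 2) =
            ε * S.card * (volume F).toReal * ∫ z in F, ‖φ z‖ ^ 2 := by ring
        rw [h10] at h9
        exact add_le_add le_rfl h9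

end assembly

end Pool.Agent.QU
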